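import Mathlib

/-! Counting exponents: the dual test function. -/

set_option autoImplicit false

open Finset

namespace Pool.Agent.H32.AG

/-- grouping the residues by their order -/
theorem sum_group {e : ℕ} (he : 0 < e) (F : ℕ → ℝ) :
    ∑ c ∈ range e, F c = ∑ d ∈ e.divisors, ∑ b ∈ (range d).filter (fun b => Nat.Coprime d b),
      F (e / d * b) := by
  have hmaps : ∀ c ∈ range e, e / Nat.gcd e c ∈ e.divisors := by
    intro c _
    rw [Nat.mem_divisors]
    exact ⟨Nat.div_dvd_of_dvd (Nat.gcd_dvd_left e c), he.ne'⟩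
  rw [← Finset.sum_fiberwise_of_maps_to hmaps]
  refine Finset.sum_congr rfl fun d hd => ?_
  have hde : d ∣ e := Nat.dvd_of_mem_divisors hd
  have hd0 : 0 < d := Nat.pos_of_dvd_of_pos hde he
  obtain ⟨q, hq⟩ := hde
  have hq0 : 0 < q := by
    rcases Nat.eq_zero_or_pos q with h | h
    · rw [h, mul_zero] at hq; omega
    · exact h
  have hed : e / d = q := by rw [hq]; exact Nat.mul_div_cancel_left q hd0
  symm
  refine Finset.sum_nbij (fun b => e / d * b) ?_ ?_ ?_ ?_
  · intro b hb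
    rw [Finset.mem_filter, Finset.mem_range] at hb
    rw [Finset.mem_filter, Finset.mem_range, hed]
    refine ⟨?_, ?_⟩
    · rw [hq, mul_comm d q]
      exact Nat.mul_lt_mul_of_pos_left hb.1 hq0
    · have h1 : Nat.gcd e (q * b) = q := by
        rw [hq, mul_comm d q, Nat.gcd_mul_left, hb.2.gcd_eq_one, mul_one]
      rw [h1, hq]
      exact Nat.mul_div_cancel d hq0
  · intro b _ b' _ h
    have h' : e / d * b = e / d * b' := h
    rw [hed] at h'
    exact Nat.eq_of_mul_eq_mul_left hq0 h'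
  · intro c hc
    rw [Finset.mem_coe, Finset.mem_filter, Finset.mem_range] at hc
    obtain ⟨hc1, hc2⟩ := hc
    have hg : Nat.gcd e c = q := by
      have h1 : e / Nat.gcd e c * Nat.gcd e c = e := Nat.div_mul_cancel (Nat.gcd_dvd_left e c)
      rw [hc2] at h1
      rw [hq] at h1 ⊢
      exact Nat.eq_of_mul_eq_mul_left hd0 h1
    obtain ⟨b, hb⟩ : q ∣ c := hg ▸ Nat.gcd_dvd_right e c
    refine ⟨b, ?_, ?_⟩
    · rw [Finset.mem_coe, Finset.mem_filter, Finset.mem_range]
      refine ⟨?_, ?_⟩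
      · rw [hb, hq, mul_comm d q] at hc1
        exact Nat.lt_of_mul_lt_mul_left hc1
      · rw [hb, hq, mul_comm d q, Nat.gcd_mul_left] at hg
        exact Nat.eq_of_mul_eq_mul_left hq0 (by rw [hg, mul_one])
    · change e / d * b = c
      rw [hed, hb]
  · intro b _
    rfl

/-- **The dual test function.** -/
theorem core {e : ℕ} (he : 1 < e) (m k : ℕ → ℕ)
    (hk : ∀ c, 0 < c → c < e → m c + m (e - c) = k (e / Nat.gcd e c))
    {ι : Type*} (S : Finset ι) (a : ι → ℕ) (ha : ∀ i ∈ S, 0 < a i ∧ a i < e)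
    (hA : ∀ c, 0 < c → c < e → (S.filter fun i => a i = c).card ≤ m c)
    {D : ℕ} (hD : ∑ c ∈ Ioo 0 e, m c = D) {lam Q : ℝ}
    (hQ : ∀ d, d ∣ e → 1 < d → Nat.totient d ≤ 2 * D →
      ∑ b ∈ (range d).filter (fun b => Nat.Coprime d b),
        max 0 (lam - ((e / d * min b (d - b) : ℕ) : ℝ)) ≤ Q * (Nat.totient d : ℝ)) :
    lam * (S.card : ℝ) - Q * (D : ℝ) ≤ ∑ i ∈ S, (a i : ℝ) := by
  classical
  set w : ℕ → ℝ := fun c => max 0 (lam - ((min c (e - c) : ℕ) : ℝ)) with hw
  have hw0 : ∀ c, 0 ≤ w c := fun c => le_max_left _ _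
  have hwsym : ∀ c, 0 < c → c < e → w (e - c) = w c := by
    intro c h0 h1
    simp only [hw]
    have : e - (e - c) = c := by omega
    rw [this, min_comm]
  -- the first bound
  have h1 : lam * (S.card : ℝ) - ∑ i ∈ S, w (a i) ≤ ∑ i ∈ S, (a i : ℝ) := by
    have h2 : ∑ i ∈ S, lam = lam * (S.card : ℝ) := by
      rw [Finset.sum_const, nsmul_eq_mul, mul_comm]
    rw [← h2, ← Finset.sum_sub_distrib]
    refine Finset.sum_le_sum fun i hi => ?_
    have h3 : lam - ((min (a i) (e - a i) : ℕ) : ℝ) ≤ w (a i) := le_max_right _ _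
    have h4 : ((min (a i) (e - a i) : ℕ) : ℝ) ≤ (a i : ℝ) := by
      exact_mod_cast min_le_left _ _
    linarith
  -- by the value of the exponent
  have h2 : ∑ i ∈ S, w (a i) ≤ ∑ c ∈ Ioo 0 e, (m c : ℝ) * w c := by
    have hmaps : ∀ i ∈ S, a i ∈ Ioo 0 e := fun i hi => Finset.mem_Ioo.2 (ha i hi)
    rw [← Finset.sum_fiberwise_of_maps_to hmaps]
    refine Finset.sum_le_sum fun c hc => ?_
    rw [Finset.mem_Ioo] at hc
    have h3 : ∑ i ∈ S.filter (fun i => a i = c), w (a i) =
        ((S.filter fun i => a i = c).card : ℝ) * w c := by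
      rw [Finset.sum_congr rfl (g := fun _ => w c) fun i hi => by rw [(Finset.mem_filter.1 hi).2],
        Finset.sum_const, nsmul_eq_mul]
    rw [h3]
    exact mul_le_mul_of_nonneg_right (by exact_mod_cast hA c hc.1 hc.2) (hw0 c)
  -- symmetrization
  have hrefl : ∀ F : ℕ → ℝ, ∑ c ∈ Ioo 0 e, F (e - c) = ∑ c ∈ Ioo 0 e, F c := by
    intro F
    refine Finset.sum_nbij' (fun c => e - c) (fun c => e - c) ?_ ?_ ?_ ?_ ?_
    · intro c hc
      rw [Finset.mem_Ioo] at hc ⊢
      omega
    · intro c hc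
      rw [Finset.mem_Ioo] at hc ⊢
      omega
    · intro c hc
      rw [Finset.mem_Ioo] at hc
      omega
    · intro c hc
      rw [Finset.mem_Ioo] at hc
      omega
    · intro c _
      rfl
  have hpair : ∀ F : ℕ → ℝ, (∀ c, 0 < c → c < e → F (e - c) = F c) →
      2 * ∑ c ∈ Ioo 0 e, (m c : ℝ) * F c =
        ∑ c ∈ Ioo 0 e, (k (e / Nat.gcd e c) : ℝ) * F c := by
    intro F hF
    have h3 := hrefl fun c => (m c : ℝ) * F c
    have h4 : ∑ c ∈ Ioo 0 e, (m (e - c) : ℝ) * F (e - c) =
        ∑ c ∈ Ioo 0 e, (m (e - c) : ℝ) * F c :=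
      Finset.sum_congr rfl fun c hc => by
        rw [Finset.mem_Ioo] at hc
        rw [hF c hc.1 hc.2]
    have h5 : ∑ c ∈ Ioo 0 e, (k (e / Nat.gcd e c) : ℝ) * F c =
        ∑ c ∈ Ioo 0 e, (m c : ℝ) * F c + ∑ c ∈ Ioo 0 e, (m (e - c) : ℝ) * F c := by
      rw [← Finset.sum_add_distrib]
      refine Finset.sum_congr rfl fun c hc => ?_
      rw [Finset.mem_Ioo] at hc
      rw [← hk c hc.1 hc.2, Nat.cast_add, add_mul]
    rw [h5, ← h4, h3, two_mul]
  -- grouping
  have hgroup : ∀ F : ℕ → ℝ, ∑ c ∈ Ioo 0 e, (k (e / Nat.gcd e c) : ℝ) * F c =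
      ∑ d ∈ e.divisors.filter (fun d => 1 < d), (k d : ℝ) *
        ∑ b ∈ (range d).filter (fun b => Nat.Coprime d b), F (e / d * b) := by
    intro F
    have h3 := sum_group (e := e) (by omega)
      fun c => if c = 0 then 0 else (k (e / Nat.gcd e c) : ℝ) * F c
    have h4 : ∑ c ∈ range e, (if c = 0 then 0 else (k (e / Nat.gcd e c) : ℝ) * F c) =
        ∑ c ∈ Ioo 0 e, (k (e / Nat.gcd e c) : ℝ) * F c := by
      symm
      refine Finset.sum_subset_zero_on_sdiff (fun c hc => ?_) (fun c hc => ?_) fun c hc => ?_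
      · rw [Finset.mem_Ioo] at hc
        exact Finset.mem_range.2 hc.2
      · rw [Finset.mem_sdiff, Finset.mem_range, Finset.mem_Ioo] at hc
        rw [if_pos (by omega)]
      · rw [Finset.mem_Ioo] at hc
        rw [if_neg (by omega)]
    rw [h4] at h3
    rw [h3, Finset.sum_filter]
    refine Finset.sum_congr rfl fun d hd => ?_
    have hde : d ∣ e := Nat.dvd_of_mem_divisors hd
    have hd0 : 0 < d := Nat.pos_of_dvd_of_pos hde (by omega)
    by_cases hd1 : 1 < d
    · rw [if_pos hd1, Finset.mul_sum]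
      refine Finset.sum_congr rfl fun b hb => ?_
      rw [Finset.mem_filter, Finset.mem_range] at hb
      have hb0 : b ≠ 0 := by
        rintro rfl
        rw [Nat.coprime_zero_right] at hb
        omega
      have hq0 : 0 < e / d := Nat.div_pos (Nat.le_of_dvd (by omega) hde) hd0
      have h5 : e / d * b ≠ 0 := Nat.mul_ne_zero hq0.ne' hb0
      rw [if_neg h5]
      have h6 : e / Nat.gcd e (e / d * b) = d := by
        have h8 : Nat.gcd (e / d * d) (e / d * b) = e / d := by
          rw [Nat.gcd_mul_left, hb.2.gcd_eq_one, mul_one]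
        rw [Nat.div_mul_cancel hde] at h8
        rw [h8, Nat.div_div_self hde (by omega)]
      rw [h6]
    · have hd2 : d = 1 := by omega
      subst hd2
      simp
  -- the value of the test function on a group
  have hwd : ∀ d, d ∣ e → 1 < d → ∀ b, b < d → w (e / d * b) =
      max 0 (lam - ((e / d * min b (d - b) : ℕ) : ℝ)) := by
    intro d hde hd1 b hb
    simp only [hw]
    have h7 : e = e / d * d := (Nat.div_mul_cancel hde).symm
    have h8 : e - e / d * b = e / d * (d - b) := by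
      rw [Nat.mul_sub, ← h7]
    rw [h8, ← Nat.mul_min_mul_left]
  have h5 := hpair (fun _ => 1) fun _ _ _ => rfl
  simp only [mul_one] at h5
  have h6 : ∑ c ∈ Ioo 0 e, (m c : ℝ) = (D : ℝ) := by
    rw [← hD, Nat.cast_sum]
  rw [h6] at h5
  have hcard : ∀ d : ℕ, ∑ b ∈ (range d).filter (fun b => Nat.Coprime d b), (1 : ℝ) =
      (Nat.totient d : ℝ) := by
    intro d
    rw [Finset.sum_const, nsmul_eq_mul, mul_one, Nat.totient_eq_card_coprime]
  have h4 := hgroup fun _ => 1
  simp only [mul_one] at h4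
  have h3 : ∑ c ∈ Ioo 0 e, (k (e / Nat.gcd e c) : ℝ) * w c ≤
      Q * ∑ c ∈ Ioo 0 e, (k (e / Nat.gcd e c) : ℝ) := by
    rw [hgroup w, h4, Finset.mul_sum]
    refine Finset.sum_le_sum fun d hd => ?_
    have hde : d ∣ e := Nat.dvd_of_mem_divisors (Finset.mem_filter.1 hd).1
    have hd1 : 1 < d := (Finset.mem_filter.1 hd).2
    rcases Nat.eq_zero_or_pos (k d) with h5' | h5'
    · rw [h5', Nat.cast_zero, zero_mul, zero_mul, mul_zero]
    · have h7 : ∑ b ∈ (range d).filter (fun b => Nat.Coprime d b), w (e / d * b) =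
          ∑ b ∈ (range d).filter (fun b => Nat.Coprime d b),
            max 0 (lam - ((e / d * min b (d - b) : ℕ) : ℝ)) :=
        Finset.sum_congr rfl fun b hb => by
          rw [Finset.mem_filter, Finset.mem_range] at hb
          exact hwd d hde hd1 b hb.1
      have h10 : Nat.totient d ≤ 2 * D := by
        have h11 := Finset.single_le_sum (f := fun d => (k d : ℝ) *
          ∑ b ∈ (range d).filter (fun b => Nat.Coprime d b), (1 : ℝ)) (fun d _ => by
            rw [hcard]; positivity) hd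
        rw [← h4, ← h5] at h11
        change (k d : ℝ) * ∑ b ∈ (range d).filter (fun b => Nat.Coprime d b), (1 : ℝ) ≤ _ at h11
        rw [hcard] at h11
        have h12 : k d * Nat.totient d ≤ 2 * D := by exact_mod_cast h11
        exact le_trans (Nat.le_mul_of_pos_left _ h5') h12
      rw [hcard, h7]
      have h8 := hQ d hde hd1 h10
      have h9 : (0 : ℝ) ≤ (k d : ℝ) := Nat.cast_nonneg _
      nlinarith [mul_le_mul_of_nonneg_left h8 h9]
  rw [← hpair w hwsym, ← h5] at h3
  linarith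

end Pool.Agent.H32.AG
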