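import Pool.Agent.H32.AG.Core
import Pool.Agent.H91.RC.Bounds

/-! The sum of the exponents, from the number of the moved forms. -/

set_option autoImplicit false
set_option linter.unusedSectionVars false

open Finset Pool.Agent.H91.RC

namespace Pool.Agent.H32.AG

/-- the test function for the linear bounds -/
theorem hQ_lin {e d κ : ℕ} (hde : d ∣ e) (hd1 : 1 < d) (hκ : 0 < κ)
    (h5 : d * Nat.totient d ≤
      κ * ∑ b ∈ (range d).filter (fun b => Nat.Coprime d b), min b (d - b)) :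
    ∑ b ∈ (range d).filter (fun b => Nat.Coprime d b),
      max 0 ((e : ℝ) / 2 - ((e / d * min b (d - b) : ℕ) : ℝ)) ≤
        ((e : ℝ) / 2 - (e : ℝ) / κ) * (Nat.totient d : ℝ) := by
  obtain ⟨q, hq⟩ := hde
  have hed : e / d = q := by rw [hq]; exact Nat.mul_div_cancel_left q (by omega)
  have hqe : (e : ℝ) = (q : ℝ) * (d : ℝ) := by rw [hq]; push_cast; ring
  rw [hed]
  have h1 : ∀ b ∈ (range d).filter (fun b => Nat.Coprime d b),
      max 0 ((e : ℝ) / 2 - ((q * min b (d - b) : ℕ) : ℝ)) =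
        (e : ℝ) / 2 - (q : ℝ) * ((min b (d - b) : ℕ) : ℝ) := by
    intro b _
    have h2 : 2 * min b (d - b) ≤ d := by omega
    have h3 : 2 * ((min b (d - b) : ℕ) : ℝ) ≤ (d : ℝ) := by exact_mod_cast h2
    have h4 : (0 : ℝ) ≤ (q : ℝ) := Nat.cast_nonneg _
    rw [Nat.cast_mul, max_eq_right]
    rw [hqe]
    nlinarith [mul_le_mul_of_nonneg_left h3 h4]
  rw [Finset.sum_congr rfl h1, Finset.sum_sub_distrib, ← Finset.mul_sum, Finset.sum_const,
    nsmul_eq_mul, ← Nat.totient_eq_card_coprime]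
  have hκR : (0 : ℝ) < (κ : ℝ) := by exact_mod_cast hκ
  have h6 : (d : ℝ) * (Nat.totient d : ℝ) / (κ : ℝ) ≤
      ∑ b ∈ (range d).filter (fun b => Nat.Coprime d b), ((min b (d - b) : ℕ) : ℝ) := by
    rw [div_le_iff₀ hκR, mul_comm _ (κ : ℝ)]
    exact_mod_cast h5
  have h4 : (0 : ℝ) ≤ (q : ℝ) := Nat.cast_nonneg _
  have h7 := mul_le_mul_of_nonneg_left h6 h4
  have h8 : (q : ℝ) * ((d : ℝ) * (Nat.totient d : ℝ) / (κ : ℝ)) =
      (e : ℝ) / κ * (Nat.totient d : ℝ) := by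
    rw [hqe]
    ring
  rw [h8] at h7
  linarith

/-- the test function for the quadratic bounds -/
theorem hQ_quad {e d R : ℕ} (he : 0 < e) (hde : d ∣ e) (hd1 : 1 < d)
    (hR : 2 * d ≤ R * Nat.totient (2 * d)) {lam : ℝ} (hlam : 0 ≤ lam) :
    ∑ b ∈ (range d).filter (fun b => Nat.Coprime d b),
      max 0 (lam - ((e / d * min b (d - b) : ℕ) : ℝ)) ≤
        lam ^ 2 * (R : ℝ) / (2 * (e : ℝ)) * (Nat.totient d : ℝ) := by
  obtain ⟨q, hq⟩ := hde
  have hed : e / d = q := by rw [hq]; exact Nat.mul_div_cancel_left q (by omega)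
  have hqe : (e : ℝ) = (q : ℝ) * (d : ℝ) := by rw [hq]; push_cast; ring
  have hq0 : 0 < q := by
    rcases Nat.eq_zero_or_pos q with h | h
    · rw [h, mul_zero] at hq; omega
    · exact h
  have hqR : (0 : ℝ) < (q : ℝ) := by exact_mod_cast hq0
  have hdR : (0 : ℝ) < (d : ℝ) := by
    have : 0 < d := by omega
    exact_mod_cast this
  rw [hed]
  have h1 : ∀ b ∈ (range d).filter (fun b => Nat.Coprime d b),
      max 0 (lam - ((q * min b (d - b) : ℕ) : ℝ)) =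
        (q : ℝ) * max 0 (lam / q - ((min b (d - b) : ℕ) : ℝ)) := by
    intro b _
    rw [mul_max_of_nonneg _ _ hqR.le, mul_zero, mul_sub, mul_div_cancel₀ _ hqR.ne', Nat.cast_mul]
  rw [Finset.sum_congr rfl h1, ← Finset.mul_sum]
  set X : ℝ := ∑ b ∈ (range d).filter (fun b => Nat.Coprime d b),
    max 0 (lam / q - ((min b (d - b) : ℕ) : ℝ)) with hX
  have hX0 : 0 ≤ X := Finset.sum_nonneg fun b _ => le_max_left _ _
  have h2 : X * (Nat.totient (2 * d) : ℝ) ≤ (lam / q) ^ 2 * (Nat.totient d : ℝ) :=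
    coprime_sum_le d hd1 (lam / q) (by positivity)
  have h3 : 2 * (d : ℝ) ≤ (R : ℝ) * (Nat.totient (2 * d) : ℝ) := by
    exact_mod_cast hR
  have h4 : X * (2 * (d : ℝ)) ≤ (R : ℝ) * ((lam / q) ^ 2 * (Nat.totient d : ℝ)) := by
    calc X * (2 * (d : ℝ)) ≤ X * ((R : ℝ) * (Nat.totient (2 * d) : ℝ)) :=
          mul_le_mul_of_nonneg_left h3 hX0
      _ = (R : ℝ) * (X * (Nat.totient (2 * d) : ℝ)) := by ring
      _ ≤ _ := mul_le_mul_of_nonneg_left h2 (by positivity)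
  have h5 : lam ^ 2 * (R : ℝ) / (2 * (e : ℝ)) * (Nat.totient d : ℝ) =
      (q : ℝ) * ((R : ℝ) * ((lam / q) ^ 2 * (Nat.totient d : ℝ))) / (2 * (d : ℝ)) := by
    rw [hqe]
    field_simp
  rw [h5, le_div_iff₀ (by positivity)]
  calc (q : ℝ) * X * (2 * (d : ℝ)) = (q : ℝ) * (X * (2 * (d : ℝ))) := by ring
    _ ≤ _ := mul_le_mul_of_nonneg_left h4 hqR.le

section

variable {e : ℕ} (he : 1 < e) (m k : ℕ → ℕ)
    (hk : ∀ c, 0 < c → c < e → m c + m (e - c) = k (e / Nat.gcd e c))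
    {ι : Type*} (S : Finset ι) (a : ι → ℕ) (ha : ∀ i ∈ S, 0 < a i ∧ a i < e)
    (hA : ∀ c, 0 < c → c < e → (S.filter fun i => a i = c).card ≤ m c)
    {D : ℕ} (hD : ∑ c ∈ Ioo 0 e, m c = D) {s t : ℕ} (ht : t ≤ 1) (hs : s ≤ S.card) (hs0 : 0 < s)

include he hk ha hA hD ht hs hs0

theorem count_real {lam Q : ℝ} (hlam : 0 ≤ lam)
    (hQ : ∀ d, d ∣ e → 1 < d → Nat.totient d ≤ 2 * D →
      ∑ b ∈ (range d).filter (fun b => Nat.Coprime d b),
        max 0 (lam - ((e / d * min b (d - b) : ℕ) : ℝ)) ≤ Q * (Nat.totient d : ℝ))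
    (h : (e : ℝ) ≤ lam * (s : ℝ) - Q * (D : ℝ) ∧
      (t = 1 → (e : ℝ) < lam * (s : ℝ) - Q * (D : ℝ))) :
    e + t ≤ ∑ i ∈ S, a i := by
  have h1 := core he m k hk S a ha hA hD hQ
  have hsR : (s : ℝ) ≤ (S.card : ℝ) := by exact_mod_cast hs
  have h2 : lam * (s : ℝ) - Q * (D : ℝ) ≤ ∑ i ∈ S, (a i : ℝ) := by
    have := mul_le_mul_of_nonneg_left hsR hlam
    linarith
  interval_cases t
  · have h3 : (e : ℝ) ≤ ∑ i ∈ S, (a i : ℝ) := h.1.trans h2
    have h4 : e ≤ ∑ i ∈ S, a i := by exact_mod_cast h3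
    omega
  · have h3 : (e : ℝ) < ∑ i ∈ S, (a i : ℝ) := (h.2 rfl).trans_le h2
    have h4 : e < ∑ i ∈ S, a i := by exact_mod_cast h3
    omega

/-- the linear bounds, with the weight `1 / κ` for each moved form -/
theorem count_lin {κ : ℕ} (hκ : 0 < κ) (hW : ∀ d, d ∣ e → 1 < d → d * Nat.totient d ≤
      κ * ∑ b ∈ (range d).filter (fun b => Nat.Coprime d b), min b (d - b))
    (h : κ * D + 2 * κ + t ≤ κ * s + 2 * D) : e + t ≤ ∑ i ∈ S, a i := by
  have heR : (0 : ℝ) < (e : ℝ) := by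
    have : 0 < e := by omega
    exact_mod_cast this
  have hκR : (0 : ℝ) < (κ : ℝ) := by exact_mod_cast hκ
  have h2 : (κ : ℝ) * (D : ℝ) + 2 * (κ : ℝ) + (t : ℝ) ≤ (κ : ℝ) * (s : ℝ) + 2 * (D : ℝ) := by
    exact_mod_cast h
  have h3 : (e : ℝ) / 2 * (s : ℝ) - ((e : ℝ) / 2 - (e : ℝ) / κ) * (D : ℝ) =
      (e : ℝ) * ((κ : ℝ) * (s : ℝ) + 2 * (D : ℝ) - (κ : ℝ) * (D : ℝ)) / (2 * (κ : ℝ)) := by
    field_simp
    ring
  refine count_real he m k hk S a ha hA hD ht hs hs0 (lam := (e : ℝ) / 2)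
    (Q := (e : ℝ) / 2 - (e : ℝ) / κ) (by positivity)
    (fun d hde hd1 _ => hQ_lin hde hd1 hκ (hW d hde hd1)) ?_
  rw [h3]
  refine ⟨?_, fun ht1 => ?_⟩
  · rw [le_div_iff₀ (by positivity)]
    have h5 : (0 : ℝ) ≤ (t : ℝ) := Nat.cast_nonneg _
    nlinarith
  · rw [lt_div_iff₀ (by positivity)]
    rw [ht1, Nat.cast_one] at h2
    nlinarith

/-- the quadratic bounds -/
theorem count_quad {R : ℕ} (hR : ∀ d, d ∣ e → 1 < d → Nat.totient d ≤ 2 * D →
      2 * d ≤ R * Nat.totient (2 * d)) (h : 2 * D * R + t ≤ s ^ 2) : e + t ≤ ∑ i ∈ S, a i := by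
  have heR : (0 : ℝ) < (e : ℝ) := by
    have : 0 < e := by omega
    exact_mod_cast this
  rcases Nat.eq_zero_or_pos D with hD0 | hD0
  · have h2 : (1 : ℝ) ≤ (s : ℝ) := by exact_mod_cast hs0
    refine count_real he m k hk S a ha hA hD ht hs hs0 (lam := (e : ℝ) + 1) (Q := 0)
      (by positivity) (fun d hde hd1 h3 => by
        have h4 := Nat.totient_pos.2 (show 0 < d by omega)
        omega) ⟨?_, fun _ => ?_⟩ <;> nlinarith
  · have hDR : (0 : ℝ) < (D : ℝ) := by exact_mod_cast hD0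
    have hs0R : (0 : ℝ) < (s : ℝ) := by exact_mod_cast hs0
    rcases Nat.eq_zero_or_pos R with hR0 | hR0
    · -- then there are no eigenvalues
      subst hR0
      refine count_real he m k hk S a ha hA hD ht hs hs0 (lam := ((e : ℝ) + 1)) (Q := 0)
        (by positivity) (fun d hde hd1 h3 => by
          have h4 := hR d hde hd1 h3
          omega) ?_
      have h2 : (1 : ℝ) ≤ (s : ℝ) := by exact_mod_cast hs0
      refine ⟨?_, fun _ => ?_⟩ <;> nlinarith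
    have hRR : (0 : ℝ) < (R : ℝ) := by exact_mod_cast hR0
    set lam : ℝ := (s : ℝ) * (e : ℝ) / ((R : ℝ) * (D : ℝ)) with hlam
    have hlam0 : 0 < lam := by positivity
    have h2 : 2 * (D : ℝ) * (R : ℝ) + (t : ℝ) ≤ (s : ℝ) ^ 2 := by exact_mod_cast h
    have h3 : lam * (s : ℝ) - lam ^ 2 * (R : ℝ) / (2 * (e : ℝ)) * (D : ℝ) =
        (e : ℝ) * (s : ℝ) ^ 2 / (2 * (D : ℝ) * (R : ℝ)) := by
      rw [hlam]
      field_simp
      ring
    refine count_real he m k hk S a ha hA hD ht hs hs0 (lam := lam)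
      (Q := lam ^ 2 * (R : ℝ) / (2 * (e : ℝ))) hlam0.le
      (fun d hde hd1 hd2 => hQ_quad (by omega) hde hd1 (hR d hde hd1 hd2) hlam0.le) ?_
    rw [h3]
    refine ⟨?_, fun ht1 => ?_⟩
    · rw [le_div_iff₀ (by positivity)]
      have h5 : (0 : ℝ) ≤ (t : ℝ) := Nat.cast_nonneg _
      nlinarith
    · rw [lt_div_iff₀ (by positivity)]
      rw [ht1, Nat.cast_one] at h2
      nlinarith

end

end Pool.Agent.H32.AG
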