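import Pool.Agent.H34.FA.Main

/-! From the estimate of the exponents to the Kodaira dimension and the numerical dimension (as in
`Pool.Agent.H34.FA.Main`, with the estimate only for the elements of `G` which fix a prime divisor
over `Z` pointwise). -/

set_option autoImplicit false
set_option linter.overlappingInstances false
set_option linter.unusedSectionVars false

open Module FF IntermediateField Pool.Agent.W619.PQ Pool.Agent.W619.TW Pool.Agent.W619.Y
  Pool.Agent.Y173.QA Pool.Agent.Y173.QM Pool.Agent.Y174 Pool.Agent.V11168.Rel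
  Pool.Agent.V11168.Pair

namespace Pool.Agent.H32.AG

variable {L : Type} [Field L] [Algebra ℂ L]

/-- `g` fixes pointwise a prime divisor over the variety `Z` with the function field `L`,
`dim Z = n`. -/
def FixesDivisor (n : ℕ) (g : L ≃ₐ[ℂ] L) : Prop :=
  ∃ w : Place ℂ L, IsDivisorial w n ∧ ∀ z, w.Reg z → g z - z = 0 ∨ 1 ≤ w.ord (g z - z)

/-- The estimate `∑ a i ≥ ord g + t` for the exponents of `g`-eigenforms which are independent
relative to `M`, if `g` fixes a prime divisor over `Z` pointwise. -/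
def Est (G : Subgroup (L ≃ₐ[ℂ] L)) (M : IntermediateField ℂ L) (d f : ℕ)
    (V : Submodule ℂ (Derivation ℂ L L →ₗ[L] L)) (t : ℕ) : Prop :=
  ∀ g ∈ G, g ≠ 1 → FixesDivisor (d + f) g → ∀ ζ : ℂ, IsPrimitiveRoot ζ (orderOf g) →
    ∀ (η : Fin f → Derivation ℂ L L →ₗ[L] L) (a : Fin f → ℕ),
    (∀ i, η i ∈ V ∧ a i < orderOf g ∧ IsImage g (η i) (ζ ^ a i • η i)) →
    IndepOver (m := d) M η → orderOf g + t ≤ ∑ i, a i

variable [Algebra.EssFiniteType ℂ L]
    (M : IntermediateField ℂ L) [Algebra.EssFiniteType ℂ M] {d f : ℕ}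
    (hM : Algebra.trdeg ℂ M = d) (hn : Algebra.trdeg ℂ L = (d + (f + 1) : ℕ))
    {δB : Place ℂ M → ℝ} (hB : ∀ u, δB u ≤ 1)
    (G : Subgroup (L ≃ₐ[ℂ] L)) [Finite G]
    (V : Submodule ℂ (Derivation ℂ L L →ₗ[L] L)) (hreg : ∀ θ ∈ V, IsRegForm (d + (f + 1)) θ)
    (hstab : ∀ g ∈ G, ∀ θ ∈ V, ∃ θ' ∈ V, IsImage g θ θ')
    (hind : ∃ θ : Fin (f + 1) → Derivation ℂ L L →ₗ[L] L, (∀ i, θ i ∈ V) ∧
      IndepOver (m := d) M θ)
    (hBX : BaseBound (d + (f + 1)) G M (fun _ => False) (fun _ => 0) δB)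

include hM hn hB hreg hstab hind hBX

theorem main_exact (hEst : Est G M d (f + 1) V 0) (hMcl : ∀ x : L, IsAlgebraic M x → x ∈ M)
    (hcl : ∀ θ ∈ V, IsClosedForm θ) (hgt : PairKod ℂ M d δB d)
    (hmod : IsRegularOnModel (constFields (fibreForms M V))) :
    ∃ a : ℕ, a + Module.finrank M (constFields (fibreForms M V)) = f + 1 ∧
      (∀ h, KodTr ℂ (fixedField G) (d + (f + 1)) h ↔ h ≤ d + a) ∧
      (∀ h, NumLe ℂ (fixedField G) (d + (f + 1)) (fun _ => False) h ↔ d + a ≤ h) := by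
  obtain ⟨η, hη, hηi⟩ := hind
  have hlog : ∀ θ ∈ V, IsLogForm (d + (f + 1)) (BdOn fun _ : Place ℂ (fixedField G) => False) θ :=
    fun θ hθ w hw D hD => hreg θ hθ w hw D (hD.1 fun ⟨_, _, _, h⟩ => h)
  have hRT : ReidTaiPair d (f + 1) G M V (fun _ => False) (fun _ => 0) δB := by
    intro g hg hg1 v w _ hw _ hfix ζ hζ η a hηa hηi c β hcβ
    have h1 := hEst g hg hg1 ⟨w, hw, hfix⟩ ζ hζ η a hηa hηi
    have h2 : (orderOf g : ℝ) ≤ ∑ i, (a i : ℝ) := by exact_mod_cast h1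
    have h3 : 0 ≤ (c : ℝ) * (1 - β) := by
      rcases hcβ with ⟨u, -, rfl⟩ | ⟨rfl, -⟩
      · exact mul_nonneg (Nat.cast_nonneg c) (by linarith [hB u])
      · simp
    rw [sub_zero, mul_one]
    linarith
  have hT : ∀ v : Place ℂ (fixedField G), IsDivisorial v (d + (f + 1)) →
      ∃ g ∈ ({1} : Finset (fixedField G)), g ≠ 0 ∧ (0 : ℝ) ≤ (v.ord g : ℝ) := fun v _ =>
    ⟨1, Finset.mem_singleton_self 1, one_ne_zero, by rw [v.ord_one]; simp⟩
  obtain ⟨a, ha, h1, h2⟩ := pair_main (δ := fun _ : Place ℂ (fixedField G) => (0 : ℝ)) hMcl hM hn G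
    (fun _ => le_rfl) (Bd := fun _ => False) (fun _ h => h.elim) hT hlog hcl hstab hB hBX hRT
    hη hηi
  have h3 := h2 hmod (fun v w e _ he _ => Or.inl (by
    have h4 : (1 : ℝ) ≤ e := by exact_mod_cast he.1
    have h5 : (1 : ℝ) / e ≤ 1 := by
      rw [div_le_one (by linarith)]
      exact h4
    linarith))
  have h4 := h1 d hgt
  refine ⟨a, ha, fun h => ?_, fun h => ?_⟩
  · rw [← pairKod_zero]
    exact ⟨fun h5 => pair_le h5 h3, fun h5 => pairKod_mono h5 h4⟩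
  · rw [← pairNum_zero]
    exact ⟨fun h5 => pair_le h4 h5, fun h5 => pairNum_mono h5 h3⟩

theorem main_compare (hEst : Est G M d (f + 1) V 1) (hB0 : PairKod ℂ M d δB 0) :
    (∀ h, KodTr ℂ (fixedField G) (d + (f + 1)) h ↔ KodTr ℂ L (d + (f + 1)) h) ∧
      (∀ h, NumLe ℂ L (d + (f + 1)) (fun _ => False) h →
        NumLe ℂ (fixedField G) (d + (f + 1)) (fun _ => False) h) ∧
      ∀ a, (∀ h, KodTr ℂ L (d + (f + 1)) h ↔ h ≤ a) →
        (∀ h, NumLe ℂ L (d + (f + 1)) (fun _ => False) h ↔ a ≤ h) →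
        (∀ h, KodTr ℂ (fixedField G) (d + (f + 1)) h ↔ h ≤ a) ∧
        (∀ h, NumLe ℂ (fixedField G) (d + (f + 1)) (fun _ => False) h ↔ a ≤ h) := by
  have hfd : FiniteDimensional (fixedField G) L := fd_fixed G
  obtain ⟨η, hη, hηi⟩ := hind
  have hlog : ∀ θ ∈ V, IsLogForm (d + (f + 1)) (BdOn fun _ : Place ℂ (fixedField G) => False) θ :=
    fun θ hθ w hw D hD => hreg θ hθ w hw D (hD.1 fun ⟨_, _, _, h⟩ => h)
  have hRT : ReidTaiStrict d (f + 1) G M V (fun _ => False) (fun _ => 0) δB 1 := by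
    intro g hg hg1 v w _ hw _ hfix ζ hζ η a hηa hηi c β hcβ
    have h1 := hEst g hg hg1 ⟨w, hw, hfix⟩ ζ hζ η a hηa hηi
    have h2 : (orderOf g : ℝ) + 1 ≤ ∑ i, (a i : ℝ) := by exact_mod_cast h1
    have h3 : 0 ≤ (c : ℝ) * (1 - β) := by
      rcases hcβ with ⟨u, -, rfl⟩ | ⟨rfl, -⟩
      · exact mul_nonneg (Nat.cast_nonneg c) (by linarith [hB u])
      · simp
    rw [sub_zero, mul_one]
    exact ⟨by linarith, fun _ => by linarith⟩
  have hnK : Algebra.trdeg ℂ (fixedField G) = (d + (f + 1) : ℕ) := trdeg_fixed G hn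
  obtain ⟨zK, hzK⟩ := Pool.Agent.W636.PG.exists_basis ℂ (fixedField G) _ hnK
  have hess : Algebra.EssFiniteType ℂ (fixedField G) :=
    Pool.Agent.Y174.ess_down (L := L) inferInstance zK hzK
  have hpull : IsPull (fun _ : Place ℂ (fixedField G) => 0) (fun _ : Place ℂ L => 0) := isPull_zero
  have h1 : ∀ h, PairKod ℂ (fixedField G) (d + (f + 1)) (fun _ => 0) h ↔
      PairKod ℂ L (d + (f + 1)) (fun _ => 0) h := fun h =>
    ⟨fun h2 => pair_up hess hnK hpull h2, fun h2 => transfer hM hn G (fun _ => le_rfl)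
      (Bd := fun _ => False) (fun _ h => h.elim) hlog hstab hB hBX one_pos hRT hη hηi hB0 hpull h2⟩
  have h2 : ∀ h, PairNum ℂ L (d + (f + 1)) (fun _ => 0) h →
      PairNum ℂ (fixedField G) (d + (f + 1)) (fun _ => 0) h :=
    fun h h3 => pair_num hess hnK hpull h3
  have e1 : ∀ h, KodTr ℂ (fixedField G) (d + (f + 1)) h ↔ KodTr ℂ L (d + (f + 1)) h := by
    intro h
    rw [← pairKod_zero, ← pairKod_zero]
    exact h1 h
  have e2 : ∀ h, NumLe ℂ L (d + (f + 1)) (fun _ => False) h →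
      NumLe ℂ (fixedField G) (d + (f + 1)) (fun _ => False) h := by
    intro h
    rw [← pairNum_zero, ← pairNum_zero]
    exact h2 h
  refine ⟨e1, e2, fun a ha ha' => ⟨fun h => (e1 h).trans (ha h), fun h => ⟨fun h5 => ?_,
    fun h5 => e2 h ((ha' h).2 h5)⟩⟩⟩
  have h4 : PairKod ℂ (fixedField G) (d + (f + 1)) (fun _ => 0) a :=
    pairKod_zero.2 ((e1 a).2 ((ha a).2 le_rfl))
  exact pair_le h4 (pairNum_zero.2 h5)

end Pool.Agent.H32.AG
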