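import Pool.Agent.H32.AG.Count
import Pool.Agent.H32.AG.Main
import Pool.Agent.H91.RC.Est
import Pool.Agent.H91.RC.PrimePow

/-! The estimate for the exponents of eigenforms, from the number of the moved forms. -/

set_option autoImplicit false

open Module Finset FF IntermediateField Pool.Agent.Y173.QA Pool.Agent.Y173.QM Pool.Agent.H91.RC

namespace Pool.Agent.H32.AG

variable {L : Type} [Field L] [Algebra ℂ L]

/-- the forms in `V` which `g` multiplies by `c` -/
def eigenforms (g : L ≃ₐ[ℂ] L) (V : Submodule ℂ (Derivation ℂ L L →ₗ[L] L)) (c : ℂ) :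
    Submodule ℂ (Derivation ℂ L L →ₗ[L] L) where
  carrier := {η | η ∈ V ∧ IsImage g η (c • η)}
  zero_mem' := ⟨V.zero_mem, fun D D' _ => by simp⟩
  add_mem' := by
    rintro η η' ⟨h1, h2⟩ ⟨h3, h4⟩
    refine ⟨V.add_mem h1 h3, fun D D' h => ?_⟩
    rw [smul_add, LinearMap.add_apply, LinearMap.add_apply, map_add, h2 D D' h, h4 D D' h]
  smul_mem' := by
    rintro b η ⟨h1, h2⟩
    exact ⟨V.smul_mem _ h1, (isImage_iff g _ _).2 (by
      rw [map_smul, ← (isImage_iff g _ _).1 h2, smul_comm])⟩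

theorem finrank_eigenforms (g : L ≃ₐ[ℂ] L) (V : Submodule ℂ (Derivation ℂ L L →ₗ[L] L)) (c : ℂ) :
    finrank ℂ (eigenforms g V c) = mult (act g) V c := by
  have h : eigenforms g V c = (V ⊓ End.eigenspace (act g) c :
      Submodule ℂ (Derivation ℂ L L →ₗ[L] L)) := by
    ext η
    rw [Submodule.mem_inf, End.mem_eigenspace_iff]
    change η ∈ V ∧ IsImage g η (c • η) ↔ _
    rw [isImage_iff]
    exact and_congr_right fun _ => ⟨fun h => h.symm, fun h => h.symm⟩
  rw [h]
  rfl

/-- The condition on the numbers `D` and `s` of the moved forms, for an element of order `e`. -/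
def Enough (e D s t : ℕ) : Prop :=
  2 * D + 6 + t ≤ 3 * s ∨ 2 * D * (Nat.clog 2 D + 3) + t ≤ s ^ 2 ∨
    (IsPrimePow e ∧ (D + 4 + t ≤ 2 * s ∨ 6 * D + t ≤ s ^ 2))

theorem count_all {e : ℕ} (he : 1 < e) (m k : ℕ → ℕ)
    (hk : ∀ c, 0 < c → c < e → m c + m (e - c) = k (e / Nat.gcd e c))
    {ι : Type*} (S : Finset ι) (a : ι → ℕ) (ha : ∀ i ∈ S, 0 < a i ∧ a i < e)
    (hA : ∀ c, 0 < c → c < e → (S.filter fun i => a i = c).card ≤ m c)
    {D : ℕ} (hD : ∑ c ∈ Ioo 0 e, m c = D) {s t : ℕ} (ht : t ≤ 1) (hs : s ≤ S.card) (hs0 : 0 < s)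
    (h : Enough e D s t) : e + t ≤ ∑ i ∈ S, a i := by
  rcases h with h | h | ⟨hpp, h | h⟩
  · exact count_lin he m k hk S a ha hA hD ht hs hs0 (κ := 6) (by norm_num)
      (fun d _ hd1 => sum_min_ge d hd1) (by omega)
  · refine count_quad he m k hk S a ha hA hD ht hs hs0 (R := Nat.clog 2 D + 3)
      (fun d _ hd1 hd2 => le_mul_totient d _ (by omega) ?_) h
    have hDr : D ≤ 2 ^ Nat.clog 2 D := Nat.le_pow_clog (by norm_num) D
    rw [pow_succ]
    omega
  · exact count_lin he m k hk S a ha hA hD ht hs hs0 (κ := 4) (by norm_num)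
      (fun d hde hd1 => sum_min_ge_pp d (hpp.dvd hde (by omega))) (by omega)
  · exact count_quad he m k hk S a ha hA hD ht hs hs0 (R := 3)
      (fun d hde hd1 _ => le_totient_pp d (hpp.dvd hde (by omega))) (by omega)

open scoped Classical in
theorem est_of_drop {G : Subgroup (L ≃ₐ[ℂ] L)} [Finite G]
    {V : Submodule ℂ (Derivation ℂ L L →ₗ[L] L)}
    (hstab : ∀ g ∈ G, ∀ θ ∈ V, ∃ θ' ∈ V, IsImage g θ θ') [FiniteDimensional ℂ V]
    {M : IntermediateField ℂ L} {d f t : ℕ} (ht : t ≤ 1)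
    (hb : ∀ g ∈ G, ∀ (n : ℕ) (c c' : ℂ), IsPrimitiveRoot c n → IsPrimitiveRoot c' n →
      finrank ℂ (eigenforms g V c) + finrank ℂ (eigenforms g V c⁻¹) =
        finrank ℂ (eigenforms g V c') + finrank ℂ (eigenforms g V c'⁻¹))
    (hdrop : ∀ g ∈ G, g ≠ 1 → FixesDivisor (d + f) g → ∃ s D : ℕ, 0 < s ∧
      (∀ η : Fin f → Derivation ℂ L L →ₗ[L] L, (∀ i, η i ∈ V) → IndepOver (m := d) M η →
        (Finset.univ.filter fun i => IsImage g (η i) (η i)).card + s ≤ f) ∧
      finrank ℂ (eigenforms g V 1) + D = finrank ℂ V ∧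
      Enough (orderOf g) D s t) : Est G M d f V t := by
  intro g hg hg1 hfix ζ hζ η a hη hind
  obtain ⟨s, D, hs0, hcard, hD, hcase⟩ := hdrop g hg hg1 hfix
  simp only [finrank_eigenforms] at hb hD
  have hpos := order_pos hstab hg
  have he : 1 < orderOf g := by
    rcases Nat.lt_or_ge 1 (orderOf g) with h | h
    · exact h
    · exact absurd (orderOf_eq_one_iff.1 (by omega)) hg1
  have hli := Pool.Agent.H34.FA.indep_of_over hind
  have hsum := sum_mult (act g) V hpos hζ (act_order g) (act_mem hstab hg)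
  have hcm := card_le_mult (act g) V hli (fun i => (hη i).1) (ζ := ζ) (a := a)
    fun i => ((isImage_iff g _ _).1 (hη i).2.2).symm
  set e := orderOf g with hedef
  -- the exponents which are not zero
  have h1 : (Finset.univ.filter fun i => a i = 0).card ≤
      (Finset.univ.filter fun i => IsImage g (η i) (η i)).card := by
    refine Finset.card_le_card fun i hi => ?_
    rw [Finset.mem_filter] at hi ⊢
    have h4 := (hη i).2.2
    rw [hi.2, pow_zero, one_smul] at h4
    exact ⟨Finset.mem_univ _, h4⟩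
  have h2 : (Finset.univ.filter fun i => a i = 0).card +
      (Finset.univ.filter fun i => ¬ a i = 0).card = f := by
    have := Finset.card_filter_add_card_filter_not (s := (Finset.univ : Finset (Fin f)))
      (fun i => a i = 0)
    rw [Finset.card_univ, Fintype.card_fin] at this
    exact this
  have h3 := hcard η (fun i => (hη i).1) hind
  have hs : s ≤ (Finset.univ.filter fun i => ¬ a i = 0).card := by omega
  -- the multiplicities
  have hinv : ∀ b, b < e → mult (act g) V (ζ ^ (e - b)) = mult (act g) V (ζ ^ b)⁻¹ := by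
    intro b hbe
    congr 1
    refine eq_inv_of_mul_eq_one_left ?_
    rw [← pow_add, Nat.sub_add_cancel hbe.le, hζ.pow_eq_one]
  have hprim : ∀ b, 0 < b → b < e → IsPrimitiveRoot (ζ ^ b) (e / Nat.gcd e b) := by
    intro b hb0 hbe
    have h1 : orderOf (ζ ^ b) = e / Nat.gcd e b := by
      rw [orderOf_pow' _ hb0.ne', ← hζ.eq_orderOf]
    rw [← h1]
    exact IsPrimitiveRoot.orderOf _
  have hDsum : ∑ c ∈ Ioo 0 e, mult (act g) V (ζ ^ c) = D := by
    have h4 : Finset.range e = insert 0 (Ioo 0 e) := by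
      ext x
      rw [Finset.mem_range, Finset.mem_insert, Finset.mem_Ioo]
      omega
    rw [h4, Finset.sum_insert (by rw [Finset.mem_Ioo]; omega), pow_zero] at hsum
    omega
  have hmain := count_all he (fun c => mult (act g) V (ζ ^ c))
    (fun n => mult (act g) V (ζ ^ (e / n)) + mult (act g) V (ζ ^ (e / n))⁻¹)
    (fun c hc0 hce => by
      rw [hinv c hce]
      have h5 : e / (e / Nat.gcd e c) = Nat.gcd e c :=
        Nat.div_div_self (Nat.gcd_dvd_left e c) (by omega)
      change _ = mult (act g) V (ζ ^ (e / (e / Nat.gcd e c))) +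
        mult (act g) V (ζ ^ (e / (e / Nat.gcd e c)))⁻¹
      rw [h5]
      have h6 : 0 < Nat.gcd e c := Nat.gcd_pos_of_pos_right _ hc0
      have h7 : Nat.gcd e c < e := lt_of_le_of_lt (Nat.le_of_dvd hc0 (Nat.gcd_dvd_right e c)) hce
      refine hb g hg _ _ _ (hprim c hc0 hce) ?_
      have h8 := hprim _ h6 h7
      have h9 : Nat.gcd e (Nat.gcd e c) = Nat.gcd e c :=
        Nat.gcd_eq_right (Nat.gcd_dvd_left e c)
      rwa [h9] at h8)
    (Finset.univ.filter fun i => ¬ a i = 0) a
    (fun i hi => ⟨Nat.pos_of_ne_zero (Finset.mem_filter.1 hi).2, (hη i).2.1⟩)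
    (fun c _ _ => by
      refine le_trans (Finset.card_le_card fun i hi => ?_) (hcm c)
      rw [Finset.mem_filter] at hi ⊢
      exact ⟨Finset.mem_univ _, hi.2⟩)
    hDsum ht hs hs0 hcase
  refine hmain.trans ?_
  exact Finset.sum_le_sum_of_subset (Finset.filter_subset _ _)

end Pool.Agent.H32.AG
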